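import Mathlib

set_option autoImplicit false

/-! Trace identities for the reciprocals of the distances of a zero to the critical points. -/

namespace Pool.Agent.Q311.SD

open Polynomial

/-- the values of the first two derivatives of a product of linear factors -/
theorem deriv_prod (x : ℂ) (s : Multiset ℂ) : x ∉ s →
    ((derivative (s.map fun w => X - C w).prod).eval x =
      ((s.map fun w => X - C w).prod).eval x * (s.map fun w => (x - w)⁻¹).sum ∧
    (derivative (derivative (s.map fun w => X - C w).prod)).eval x =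
      ((s.map fun w => X - C w).prod).eval x *
        ((s.map fun w => (x - w)⁻¹).sum ^ 2 - (s.map fun w => ((x - w)⁻¹) ^ 2).sum)) := by
  induction s using Multiset.induction with
  | empty => intro _; simp
  | cons w s ih =>
    intro hx
    have hw : x - w ≠ 0 := sub_ne_zero.2 fun h => hx (h ▸ Multiset.mem_cons_self _ _)
    obtain ⟨h1, h2⟩ := ih fun h => hx (Multiset.mem_cons_of_mem h)
    simp only [Multiset.map_cons, Multiset.prod_cons, Multiset.sum_cons]
    set P := (s.map fun w => X - C w).prod
    set A := (s.map fun w => (x - w)⁻¹).sum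
    set B := (s.map fun w => ((x - w)⁻¹) ^ 2).sum
    have e1 : derivative ((X - C w) * P) = P + (X - C w) * derivative P := by
      simp [derivative_mul]
    have e2 : derivative (P + (X - C w) * derivative P) =
        2 * derivative P + (X - C w) * derivative (derivative P) := by
      simp only [derivative_mul, derivative_add, derivative_sub, derivative_X, derivative_C]
      ring
    rw [e1, e2]
    simp only [eval_add, eval_mul, eval_sub, eval_X, eval_C, eval_ofNat, h1, h2]
    constructor
    · field_simp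
    · field_simp
      ring

theorem sum_sq (μ : ℂ) (T : Multiset ℂ) : (T.map fun ζ => ‖ζ - μ‖ ^ 2).sum =
    (T.map fun ζ => ‖ζ‖ ^ 2).sum - 2 * ((starRingEnd ℂ) μ * T.sum).re + T.card * ‖μ‖ ^ 2 := by
  induction T using Multiset.induction with
  | empty => simp
  | cons z T ih =>
    simp only [Multiset.map_cons, Multiset.sum_cons, Multiset.card_cons, Nat.cast_add, Nat.cast_one]
    rw [ih]
    have e : ‖z - μ‖ ^ 2 = ‖z‖ ^ 2 - 2 * ((starRingEnd ℂ) μ * z).re + ‖μ‖ ^ 2 := by
      simp only [Complex.sq_norm, Complex.normSq_apply, Complex.mul_re, Complex.sub_re,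
        Complex.sub_im, Complex.conj_re, Complex.conj_im]
      ring
    have e' : ((starRingEnd ℂ) μ * (z + T.sum)).re =
        ((starRingEnd ℂ) μ * z).re + ((starRingEnd ℂ) μ * T.sum).re := by
      rw [mul_add, Complex.add_re]
    rw [e, e']
    ring

theorem sum_sq_c (μ : ℂ) (T : Multiset ℂ) : (T.map fun ζ => (ζ - μ) ^ 2).sum =
    (T.map fun ζ => ζ ^ 2).sum - 2 * μ * T.sum + T.card * μ ^ 2 := by
  induction T using Multiset.induction with
  | empty => simp
  | cons z T ih =>
    simp only [Multiset.map_cons, Multiset.sum_cons, ih, Multiset.card_cons, Nat.cast_add,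
      Nat.cast_one]
    ring

theorem norm_sum_le (μ : ℂ) (T : Multiset ℂ) :
    ‖(T.map fun ζ => (ζ - μ) ^ 2).sum‖ ≤ (T.map fun ζ => ‖ζ - μ‖ ^ 2).sum := by
  induction T using Multiset.induction with
  | empty => simp
  | cons z T ih =>
    simp only [Multiset.map_cons, Multiset.sum_cons]
    refine (norm_add_le _ _).trans ?_
    rw [norm_pow]
    linarith

/-- lower bound for the sum of the squares of the absolute values -/
theorem energy (T : Multiset ℂ) (N : ℕ) (hN : 1 ≤ N) (hT : T.card = N) :
    ‖T.sum‖ ^ 2 / N + ‖(T.map fun ζ => ζ ^ 2).sum - T.sum ^ 2 / N‖ ≤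
      (T.map fun ζ => ‖ζ‖ ^ 2).sum := by
  have hN0 : (N : ℝ) ≠ 0 := by positivity
  have hNc : (N : ℂ) ≠ 0 := by exact_mod_cast hN0
  have h1 := norm_sum_le (T.sum / N) T
  rw [sum_sq, sum_sq_c, hT] at h1
  have e1 : (T.map fun ζ => ζ ^ 2).sum - 2 * (T.sum / N) * T.sum + N * (T.sum / N) ^ 2 =
      (T.map fun ζ => ζ ^ 2).sum - T.sum ^ 2 / N := by
    field_simp
    ring
  have e2 : ((starRingEnd ℂ) (T.sum / N) * T.sum).re = ‖T.sum‖ ^ 2 / N := by
    have : (starRingEnd ℂ) (T.sum / N) * T.sum = ((‖T.sum‖ ^ 2 / N : ℝ) : ℂ) := by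
      rw [map_div₀, Complex.conj_natCast, div_mul_eq_mul_div, mul_comm, Complex.mul_conj,
        Complex.normSq_eq_norm_sq]
      push_cast
      ring
    rw [this, Complex.ofReal_re]
  have e3 : (N : ℝ) * ‖T.sum / N‖ ^ 2 = ‖T.sum‖ ^ 2 / N := by
    rw [norm_div, Complex.norm_natCast]
    field_simp
  rw [e1, e2, e3] at h1
  linarith

end Pool.Agent.Q311.SD
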