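import Pool.Agent.Q311.SD.A

set_option autoImplicit false

/-! Sums over the critical points in terms of the zeros. -/

namespace Pool.Agent.Q311.SD

open Polynomial

/-- the polynomial `(X - a) ∏ (X - z_j)` -/
noncomputable def pz {m : ℕ} (a : ℝ) (z : Fin m → ℂ) : ℂ[X] := (X - C (a : ℂ)) * ∏ j, (X - C (z j))

/-- the critical points, with multiplicities -/
noncomputable def crit {m : ℕ} (a : ℝ) (z : Fin m → ℂ) : Multiset ℂ := (derivative (pz a z)).roots

theorem natDegree_pz {m : ℕ} (a : ℝ) (z : Fin m → ℂ) : (pz a z).natDegree = m + 1 := by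
  unfold pz
  rw [natDegree_mul (X_sub_C_ne_zero _) (Finset.prod_ne_zero_iff.2 fun j _ => X_sub_C_ne_zero _),
    natDegree_X_sub_C, natDegree_prod _ _ fun j _ => X_sub_C_ne_zero _]
  simp [add_comm]

theorem deriv_ne {m : ℕ} (a : ℝ) (z : Fin m → ℂ) : derivative (pz a z) ≠ 0 := by
  intro h
  have := natDegree_eq_zero_of_derivative_eq_zero h
  rw [natDegree_pz] at this
  omega

theorem card_crit {m : ℕ} (a : ℝ) (z : Fin m → ℂ) : (crit a z).card = m := by
  unfold crit
  rw [IsAlgClosed.card_roots_eq_natDegree]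
  have h := degree_derivative_eq (pz a z) (by rw [natDegree_pz]; omega)
  rw [natDegree_pz] at h
  have := natDegree_eq_of_degree_eq_some h
  simpa using this

/-- the sums over the zeros -/
noncomputable def S1 {m : ℕ} (a : ℝ) (z : Fin m → ℂ) : ℂ := ∑ j, ((a : ℂ) - z j)⁻¹
noncomputable def S2 {m : ℕ} (a : ℝ) (z : Fin m → ℂ) : ℂ := ∑ j, (((a : ℂ) - z j)⁻¹) ^ 2

theorem identities {m : ℕ} (a : ℝ) (z : Fin m → ℂ) (h : (a : ℂ) ∉ crit a z) :
    (∀ j, (a : ℂ) ≠ z j) ∧
    ((crit a z).map fun w => ((a : ℂ) - w)⁻¹).sum = 2 * S1 a z ∧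
    ((crit a z).map fun w => (((a : ℂ) - w)⁻¹) ^ 2).sum = S1 a z ^ 2 + 3 * S2 a z := by
  set q : ℂ[X] := ∏ j, (X - C (z j)) with hq
  set f : ℂ[X] := derivative (pz a z) with hf
  have hf0 : f ≠ 0 := deriv_ne a z
  have e0 : f = q + (X - C (a : ℂ)) * derivative q := by
    rw [hf, pz, ← hq]
    simp [derivative_mul]
  have e1 : derivative f = 2 * derivative q + (X - C (a : ℂ)) * derivative (derivative q) := by
    rw [e0]
    simp only [derivative_mul, derivative_add, derivative_sub, derivative_X, derivative_C]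
    ring
  have e2 : derivative (derivative f) = 3 * derivative (derivative q) +
      (X - C (a : ℂ)) * derivative (derivative (derivative q)) := by
    rw [e1]
    simp only [derivative_mul, derivative_add, derivative_sub, derivative_X, derivative_C,
      derivative_ofNat]
    ring
  have v0 : f.eval (a : ℂ) = q.eval (a : ℂ) := by rw [e0]; simp
  have v1 : (derivative f).eval (a : ℂ) = 2 * (derivative q).eval (a : ℂ) := by rw [e1]; simp
  have v2 : (derivative (derivative f)).eval (a : ℂ) = 3 * (derivative (derivative q)).eval (a : ℂ) := by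
    rw [e2]; simp
  have hfa : f.eval (a : ℂ) ≠ 0 := by
    intro h0
    exact h ((mem_roots hf0).2 h0)
  -- the zeros
  have hqa : q.eval (a : ℂ) ≠ 0 := v0 ▸ hfa
  have hne : ∀ j, (a : ℂ) ≠ z j := by
    intro j hj
    apply hqa
    rw [hq, eval_prod]
    exact Finset.prod_eq_zero (Finset.mem_univ j) (by simp [hj])
  have hq' : q = ((Finset.univ.val.map z).map fun w => X - C w).prod := by
    rw [hq, Multiset.map_map]
    rfl
  have hz : (a : ℂ) ∉ Finset.univ.val.map z := by
    intro h0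
    obtain ⟨j, _, hj⟩ := Multiset.mem_map.1 h0
    exact hne j hj.symm
  have dz := deriv_prod (a : ℂ) (Finset.univ.val.map z) hz
  rw [← hq'] at dz
  have s1 : ((Finset.univ.val.map z).map fun w => ((a : ℂ) - w)⁻¹).sum = S1 a z := by
    rw [Multiset.map_map]; rfl
  have s2 : ((Finset.univ.val.map z).map fun w => (((a : ℂ) - w)⁻¹) ^ 2).sum = S2 a z := by
    rw [Multiset.map_map]; rfl
  rw [s1, s2] at dz
  -- the critical points
  have hw : (a : ℂ) ∉ f.roots := h
  have dw := deriv_prod (a : ℂ) f.roots hw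
  have hfr := (IsAlgClosed.splits f).eq_prod_roots
  set R : ℂ[X] := (f.roots.map fun w => X - C w).prod with hR
  have hfR : f = C f.leadingCoeff * R := hfr
  have c0 : f.eval (a : ℂ) = f.leadingCoeff * R.eval (a : ℂ) := by
    conv_lhs => rw [hfR]
    simp
  have c1 : (derivative f).eval (a : ℂ) = f.leadingCoeff * (derivative R).eval (a : ℂ) := by
    conv_lhs => rw [hfR]
    simp [derivative_mul]
  have c2 : (derivative (derivative f)).eval (a : ℂ) =
      f.leadingCoeff * (derivative (derivative R)).eval (a : ℂ) := by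
    conv_lhs => rw [hfR]
    simp [derivative_mul]
  have T1 : (derivative f).eval (a : ℂ) =
      f.eval (a : ℂ) * (f.roots.map fun w => ((a : ℂ) - w)⁻¹).sum := by
    rw [c1, c0, dw.1]; ring
  have T2 : (derivative (derivative f)).eval (a : ℂ) = f.eval (a : ℂ) *
      ((f.roots.map fun w => ((a : ℂ) - w)⁻¹).sum ^ 2 -
        (f.roots.map fun w => (((a : ℂ) - w)⁻¹) ^ 2).sum) := by
    rw [c2, c0, dw.2]; ring
  have B1 : (f.roots.map fun w => ((a : ℂ) - w)⁻¹).sum = 2 * S1 a z := by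
    apply mul_left_cancel₀ hfa
    rw [← T1, v1, dz.1, v0]; ring
  refine ⟨hne, B1, ?_⟩
  have B2 : (f.roots.map fun w => ((a : ℂ) - w)⁻¹).sum ^ 2 -
      (f.roots.map fun w => (((a : ℂ) - w)⁻¹) ^ 2).sum = 3 * (S1 a z ^ 2 - S2 a z) := by
    apply mul_left_cancel₀ hfa
    rw [← T2, v2, dz.2, v0]; ring
  rw [B1] at B2
  show (f.roots.map fun w => (((a : ℂ) - w)⁻¹) ^ 2).sum = _
  linear_combination -B2

/-- the sum of the problem -/
noncomputable def E {m : ℕ} (a : ℝ) (z : Fin m → ℂ) : ℝ :=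
  ((crit a z).map fun w : ℂ => (‖w - (a : ℂ)‖ ^ 2)⁻¹).sum

theorem E_eq {m : ℕ} (a : ℝ) (z : Fin m → ℂ) :
    E a z = (((crit a z).map fun w => ((a : ℂ) - w)⁻¹).map fun ζ => ‖ζ‖ ^ 2).sum := by
  unfold E
  rw [Multiset.map_map]
  congr 1
  refine Multiset.map_congr rfl fun w _ => ?_
  simp only [Function.comp]
  rw [norm_inv, inv_pow, norm_sub_rev]

/-- the general inequality -/
theorem E_ge {m : ℕ} (hm : 1 ≤ m) (a : ℝ) (z : Fin m → ℂ) (h : (a : ℂ) ∉ crit a z) :
    4 * ‖S1 a z‖ ^ 2 / m + ‖3 * S2 a z + (1 - 4 / m) * S1 a z ^ 2‖ ≤ E a z := by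
  obtain ⟨_, h1, h2⟩ := identities a z h
  have h3 := energy ((crit a z).map fun w => ((a : ℂ) - w)⁻¹) m hm
    (by rw [Multiset.card_map, card_crit])
  rw [← E_eq, Multiset.map_map, h1] at h3
  have e : (Multiset.map ((fun ζ : ℂ => ζ ^ 2) ∘ fun w => ((a : ℂ) - w)⁻¹) (crit a z)).sum =
      S1 a z ^ 2 + 3 * S2 a z := h2
  rw [e] at h3
  have e1 : ‖2 * S1 a z‖ ^ 2 = 4 * ‖S1 a z‖ ^ 2 := by
    rw [norm_mul, mul_pow]; norm_num
  have e2 : S1 a z ^ 2 + 3 * S2 a z - (2 * S1 a z) ^ 2 / m =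
      3 * S2 a z + (1 - 4 / m) * S1 a z ^ 2 := by ring
  rw [e1, e2] at h3
  exact h3

end Pool.Agent.Q311.SD
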