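import Pool.Agent.Q311.SD.B

set_option autoImplicit false

/-! The criteria. -/

namespace Pool.Agent.Q311.SD

open Polynomial

/-- zeros in the unit disk -/
theorem disk {a : ℝ} {z : ℂ} (hz : ‖z‖ ≤ 1) (hne : (a : ℂ) ≠ z) :
    1 ≤ (1 - a ^ 2) * ‖((a : ℂ) - z)⁻¹‖ ^ 2 + 2 * a * (((a : ℂ) - z)⁻¹).re := by
  have hv : (a : ℂ) - z ≠ 0 := sub_ne_zero.2 hne
  have hp : 0 < Complex.normSq ((a : ℂ) - z) := Complex.normSq_pos.2 hv
  have h1 : ‖z‖ ^ 2 ≤ 1 := by nlinarith [norm_nonneg z]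
  rw [norm_inv, inv_pow, Complex.sq_norm, Complex.inv_re, ← div_eq_mul_inv, ← mul_div_assoc,
    ← add_div, le_div_iff₀ hp, one_mul]
  rw [Complex.sq_norm, Complex.normSq_apply] at h1
  rw [Complex.normSq_apply]
  simp only [Complex.sub_re, Complex.sub_im, Complex.ofReal_re, Complex.ofReal_im]
  nlinarith

/-- sum of the squares of the reciprocal distances to the other zeros -/
noncomputable def Q {m : ℕ} (a : ℝ) (z : Fin m → ℂ) : ℝ := ∑ j, ‖((a : ℂ) - z j)⁻¹‖ ^ 2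

theorem dichotomy {m : ℕ} {a : ℝ} (ha0 : 0 ≤ a) (ha1 : a ≤ 1) {z : Fin m → ℂ}
    (hz : ∀ j, ‖z j‖ ≤ 1) (hne : ∀ j, (a : ℂ) ≠ z j) :
    (m : ℝ) / 2 ≤ ‖S1 a z‖ ∨ (m : ℝ) ≤ (1 + a) * Q a z := by
  by_cases h : (m : ℝ) / 2 ≤ ‖S1 a z‖
  · exact Or.inl h
  · right
    push Not at h
    have h1 : (m : ℝ) ≤ (1 - a ^ 2) * Q a z + 2 * a * (S1 a z).re := by
      have : ∑ _j : Fin m, (1 : ℝ) ≤ ∑ j, ((1 - a ^ 2) * ‖((a : ℂ) - z j)⁻¹‖ ^ 2 +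
          2 * a * (((a : ℂ) - z j)⁻¹).re) := Finset.sum_le_sum fun j _ => disk (hz j) (hne j)
      rw [Finset.sum_add_distrib, ← Finset.mul_sum, ← Finset.mul_sum, ← Complex.re_sum] at this
      simpa [Q, S1] using this
    have h2 : (S1 a z).re ≤ ‖S1 a z‖ := Complex.re_le_norm _
    have hm0 : (0 : ℝ) ≤ m := Nat.cast_nonneg m
    rcases ha1.lt_or_eq with h3 | h3
    · have h4 : (m : ℝ) * (1 - a) ≤ (1 - a) * ((1 + a) * Q a z) := by nlinarith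
      have h5 : 0 < 1 - a := by linarith
      rw [mul_comm] at h4
      exact le_of_mul_le_mul_left h4 h5
    · subst h3
      nlinarith

/-- the first alternative -/
theorem E_of_first {m : ℕ} (hm : 1 ≤ m) {a : ℝ} {z : Fin m → ℂ} (h : (a : ℂ) ∉ crit a z)
    (h1 : (m : ℝ) / 2 ≤ ‖S1 a z‖) : (m : ℝ) ≤ E a z := by
  have h2 := E_ge hm a z h
  have hm0 : (0 : ℝ) < m := by exact_mod_cast hm
  have h3 : (m : ℝ) ≤ 4 * ‖S1 a z‖ ^ 2 / m := by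
    rw [le_div_iff₀ hm0]
    nlinarith [norm_nonneg (S1 a z)]
  linarith [norm_nonneg (3 * S2 a z + (1 - 4 / m) * S1 a z ^ 2)]

/-- `n = 3` -/
theorem E_three {a : ℝ} {z : Fin 2 → ℂ} (h : (a : ℂ) ∉ crit a z) : 3 * Q a z ≤ E a z := by
  have h2 := E_ge (by norm_num : 1 ≤ 2) a z h
  unfold S1 S2 at h2
  unfold Q
  rw [Fin.sum_univ_two] at h2 ⊢
  rw [Fin.sum_univ_two] at h2
  set u := ((a : ℂ) - z 0)⁻¹
  set v := ((a : ℂ) - z 1)⁻¹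
  have e : 3 * (u ^ 2 + v ^ 2) + (1 - 4 / ((2 : ℕ) : ℂ)) * (u + v) ^ 2 =
      (3 * (u - v) ^ 2 + (u + v) ^ 2) / 2 := by
    push_cast; ring
  rw [e] at h2
  have h3 : (3 * ‖u - v‖ ^ 2 - ‖u + v‖ ^ 2) / 2 ≤ ‖(3 * (u - v) ^ 2 + (u + v) ^ 2) / 2‖ := by
    rw [norm_div, Complex.norm_ofNat]
    have h4 : ‖3 * (u - v) ^ 2‖ - ‖(u + v) ^ 2‖ ≤ ‖3 * (u - v) ^ 2 + (u + v) ^ 2‖ := by
      have := norm_sub_norm_le (3 * (u - v) ^ 2) (-(u + v) ^ 2)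
      rw [norm_neg, sub_neg_eq_add] at this
      exact this
    rw [norm_mul, norm_pow, norm_pow, Complex.norm_ofNat] at h4
    linarith
  have h5 : ‖u + v‖ ^ 2 + ‖u - v‖ ^ 2 = 2 * (‖u‖ ^ 2 + ‖v‖ ^ 2) := by
    simp only [Complex.sq_norm, Complex.normSq_apply, Complex.add_re, Complex.add_im,
      Complex.sub_re, Complex.sub_im]
    ring
  have h6 : (4 : ℝ) * ‖u + v‖ ^ 2 / ((2 : ℕ) : ℝ) = 2 * ‖u + v‖ ^ 2 := by push_cast; ring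
  rw [h6] at h2
  linarith

/-- the criterion: `e` is a unit direction -/
theorem criterion {m : ℕ} (hm : 1 ≤ m) {a : ℝ} (ha0 : 0 ≤ a) (ha1 : a ≤ 1) {z : Fin m → ℂ}
    (hz : ∀ j, ‖z j‖ ≤ 1) (h : (a : ℂ) ∉ crit a z) (e : ℂ) (he : ‖e‖ = 1)
    (h1 : (1 + a) * Q a z ≤ 3 * (e ^ 2 * S2 a z).re)
    (h2 : (1 - 8 / (m : ℝ)) * (e * S1 a z).im ^ 2 ≤ (e * S1 a z).re ^ 2) :
    (m : ℝ) ≤ E a z := by
  obtain ⟨hne, _, _⟩ := identities a z h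
  rcases dichotomy ha0 ha1 hz hne with h3 | h3
  · exact E_of_first hm h h3
  · have h4 := E_ge hm a z h
    have h5 : (e ^ 2 * (3 * S2 a z + (1 - 4 / m) * S1 a z ^ 2)).re ≤
        ‖3 * S2 a z + (1 - 4 / m) * S1 a z ^ 2‖ := by
      refine (Complex.re_le_norm _).trans ?_
      rw [norm_mul, norm_pow, he, one_pow, one_mul]
    have e1 : e ^ 2 * (3 * S2 a z + (1 - 4 / m) * S1 a z ^ 2) =
        3 * (e ^ 2 * S2 a z) + ((1 - 4 / m : ℝ) : ℂ) * (e * S1 a z) ^ 2 := by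
      push_cast; ring
    have e2 : ‖S1 a z‖ ^ 2 = (e * S1 a z).re ^ 2 + (e * S1 a z).im ^ 2 := by
      have : ‖S1 a z‖ = ‖e * S1 a z‖ := by rw [norm_mul, he, one_mul]
      rw [this, Complex.sq_norm, Complex.normSq_apply]
      ring
    have e3 : (3 * (e ^ 2 * S2 a z) + ((1 - 4 / m : ℝ) : ℂ) * (e * S1 a z) ^ 2).re =
        3 * (e ^ 2 * S2 a z).re + (1 - 4 / m) * ((e * S1 a z).re ^ 2 - (e * S1 a z).im ^ 2) := by
      rw [Complex.add_re, Complex.re_ofReal_mul, sq (e * S1 a z), Complex.mul_re (e * S1 a z)]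
      have : (3 * (e ^ 2 * S2 a z)).re = 3 * (e ^ 2 * S2 a z).re := by
        simp [Complex.mul_re]
      rw [this]
      ring
    rw [e1, e3] at h5
    rw [e2] at h4
    have hm0 : (m : ℝ) ≠ 0 := by positivity
    have e4 : 4 * ((e * S1 a z).re ^ 2 + (e * S1 a z).im ^ 2) / (m : ℝ) +
        (1 - 4 / m) * ((e * S1 a z).re ^ 2 - (e * S1 a z).im ^ 2) =
        (e * S1 a z).re ^ 2 - (1 - 8 / (m : ℝ)) * (e * S1 a z).im ^ 2 := by
      field_simp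
      ring
    linarith

end Pool.Agent.Q311.SD
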