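import Pool.Agent.Q311.SD.C

set_option autoImplicit false

/-! Small degrees, double sectors, lines. -/

namespace Pool.Agent.Q311.SD

open Polynomial

theorem small {m : ℕ} (hm : 1 ≤ m) (hm2 : m ≤ 2) {a : ℝ} (ha0 : 0 ≤ a) (ha1 : a ≤ 1)
    {z : Fin m → ℂ} (hz : ∀ j, ‖z j‖ ≤ 1) (h : (a : ℂ) ∉ crit a z) : (m : ℝ) ≤ E a z := by
  obtain ⟨hne, _, _⟩ := identities a z h
  rcases dichotomy ha0 ha1 hz hne with h3 | h3
  · exact E_of_first hm h h3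
  · have hQ : 0 ≤ Q a z := Finset.sum_nonneg fun j _ => by positivity
    have h4 : (m : ℝ) ≤ 2 * Q a z := h3.trans (by nlinarith)
    obtain rfl | rfl : m = 1 ∨ m = 2 := by omega
    · have h5 := E_ge le_rfl a z h
      have e : ‖S1 a z‖ ^ 2 = Q a z := by
        unfold S1 Q
        rw [Fin.sum_univ_one, Fin.sum_univ_one]
      rw [e] at h5
      have := norm_nonneg (3 * S2 a z + (1 - 4 / ((1 : ℕ) : ℂ)) * S1 a z ^ 2)
      push_cast at *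
      linarith
    · have h5 := E_three h
      linarith

/-- pointwise form of the condition on `S2` -/
theorem sector_point {a : ℝ} {w d : ℂ} (hw : (a : ℂ) ≠ w)
    (h : (1 + a) * ‖w - a‖ ^ 2 ≤ 3 * (((starRingEnd ℂ) d * (w - a)) ^ 2).re) :
    (1 + a) * ‖((a : ℂ) - w)⁻¹‖ ^ 2 ≤ 3 * (d ^ 2 * (((a : ℂ) - w)⁻¹) ^ 2).re := by
  have hv : (a : ℂ) - w ≠ 0 := sub_ne_zero.2 hw
  set v : ℂ := (a : ℂ) - w with hvd
  have e0 : w - (a : ℂ) = -v := by rw [hvd]; ring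
  rw [e0, norm_neg, mul_neg, neg_sq] at h
  have hp : 0 < ‖v‖ ^ 2 := by positivity
  have e1 : v⁻¹ = (starRingEnd ℂ) v * ((‖v‖ ^ 2)⁻¹ : ℝ) := by
    rw [Complex.inv_def, Complex.normSq_eq_norm_sq]
  have e2 : d ^ 2 * (v⁻¹) ^ 2 = (starRingEnd ℂ) (((starRingEnd ℂ) d * v) ^ 2) *
      (((‖v‖ ^ 2)⁻¹ ^ 2 : ℝ) : ℂ) := by
    rw [e1]
    simp only [map_pow, map_mul, Complex.conj_conj]
    push_cast
    ring
  rw [e2, Complex.re_mul_ofReal, Complex.conj_re, norm_inv, inv_pow]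
  have h2 : (1 + a) * (‖v‖ ^ 2)⁻¹ = (1 + a) * ‖v‖ ^ 2 * (‖v‖ ^ 2)⁻¹ ^ 2 := by
    field_simp
  rw [h2]
  have h3 : 0 ≤ (‖v‖ ^ 2)⁻¹ ^ 2 := by positivity
  nlinarith [mul_le_mul_of_nonneg_right h h3]

theorem sector_sum {m : ℕ} {a : ℝ} {z : Fin m → ℂ} (hne : ∀ j, (a : ℂ) ≠ z j) {d : ℂ}
    (h : ∀ j, (1 + a) * ‖z j - a‖ ^ 2 ≤ 3 * (((starRingEnd ℂ) d * (z j - a)) ^ 2).re) :
    (1 + a) * Q a z ≤ 3 * (d ^ 2 * S2 a z).re := by
  unfold Q S2
  rw [Finset.mul_sum, Finset.mul_sum, Complex.re_sum, Finset.mul_sum]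
  exact Finset.sum_le_sum fun j _ => sector_point (hne j) (h j)

/-- the double sector -/
theorem sector {m : ℕ} (hm : 1 ≤ m) {a : ℝ} (ha0 : 0 ≤ a) (ha1 : a ≤ 1) {z : Fin m → ℂ}
    (hz : ∀ j, ‖z j‖ ≤ 1) (h : (a : ℂ) ∉ crit a z) (d : ℂ) (hd : ‖d‖ = 1)
    (h1 : ∀ j, (1 + a) * ‖z j - a‖ ^ 2 ≤ 3 * (((starRingEnd ℂ) d * (z j - a)) ^ 2).re)
    (h2 : m ≤ 8 ∨ ∃ σ : Equiv.Perm (Fin m), ∀ j, z (σ j) - a = d ^ 2 * (starRingEnd ℂ) (z j - a)) :
    (m : ℝ) ≤ E a z := by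
  obtain ⟨hne, _, _⟩ := identities a z h
  refine criterion hm ha0 ha1 hz h d hd (sector_sum hne h1) ?_
  have hm0 : (0 : ℝ) < m := by exact_mod_cast hm
  rcases h2 with h2 | ⟨σ, hσ⟩
  · have h3 : 1 - 8 / (m : ℝ) ≤ 0 := by
      rw [sub_nonpos, one_le_div hm0]
      exact_mod_cast h2
    nlinarith [sq_nonneg (d * S1 a z).im, sq_nonneg (d * S1 a z).re]
  · have hdd : d * (starRingEnd ℂ) d = 1 := by
      rw [Complex.mul_conj, Complex.normSq_eq_norm_sq, hd]; norm_num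
    have hd0 : d ≠ 0 := fun h0 => by rw [h0] at hd; simp at hd
    have hcd : (starRingEnd ℂ) d ≠ 0 := fun h0 => by rw [h0, mul_zero] at hdd; exact zero_ne_one hdd
    have key : ∀ j, d * ((a : ℂ) - z (σ j))⁻¹ = (starRingEnd ℂ) (d * ((a : ℂ) - z j)⁻¹) := by
      intro j
      have hv : (a : ℂ) - z j ≠ 0 := sub_ne_zero.2 (hne j)
      have hcv : (starRingEnd ℂ) ((a : ℂ) - z j) ≠ 0 := (_root_.map_ne_zero _).2 hv
      have e1 : (a : ℂ) - z (σ j) = d ^ 2 * (starRingEnd ℂ) ((a : ℂ) - z j) := by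
        have := hσ j
        rw [map_sub] at this ⊢
        linear_combination -this
      rw [e1, map_mul, map_inv₀]
      field_simp
      linear_combination -hdd
    have e2 : d * S1 a z = (starRingEnd ℂ) (d * S1 a z) := by
      unfold S1
      rw [Finset.mul_sum, map_sum, ← Equiv.sum_comp σ]
      exact Finset.sum_congr rfl fun j _ => key j
    have e3 : (d * S1 a z).im = 0 := Complex.conj_eq_iff_im.1 e2.symm
    rw [e3]
    nlinarith [sq_nonneg (d * S1 a z).re]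

/-- zeros on a line through `a` -/
theorem line {m : ℕ} (hm : 1 ≤ m) {a : ℝ} (ha0 : 0 ≤ a) (ha1 : a ≤ 1) {z : Fin m → ℂ}
    (hz : ∀ j, ‖z j‖ ≤ 1) (h : (a : ℂ) ∉ crit a z) (d : ℂ) (hd : ‖d‖ = 1)
    (h1 : ∀ j, ∃ t : ℝ, z j = a + t * d) : (m : ℝ) ≤ E a z := by
  have hdd : d * (starRingEnd ℂ) d = 1 := by
    rw [Complex.mul_conj, Complex.normSq_eq_norm_sq, hd]; norm_num
  refine sector hm ha0 ha1 hz h d hd (fun j => ?_) (Or.inr ⟨Equiv.refl _, fun j => ?_⟩)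
  · obtain ⟨t, ht⟩ := h1 j
    have e1 : z j - a = t * d := by rw [ht]; ring
    have e2 : (starRingEnd ℂ) d * ((t : ℂ) * d) = (t : ℂ) := by linear_combination (t : ℂ) * hdd
    rw [e1, e2, norm_mul, hd, mul_one, Complex.norm_real, Real.norm_eq_abs, sq_abs]
    have e3 : (((t : ℂ)) ^ 2).re = t ^ 2 := by
      rw [← Complex.ofReal_pow, Complex.ofReal_re]
    rw [e3]
    nlinarith [sq_nonneg t]
  · obtain ⟨t, ht⟩ := h1 j
    have e1 : z j - a = t * d := by rw [ht]; ring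
    rw [Equiv.refl_apply, e1, map_mul, Complex.conj_ofReal]
    linear_combination -(t : ℂ) * d * hdd

end Pool.Agent.Q311.SD
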